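import Mathlib

/-!
# Finitely many supporting functionals cut out a polytope with the origin in its interior
-/

set_option autoImplicit false
set_option linter.unusedSectionVars false

open Set

namespace Pool.Agent.Helper31.PN

variable {V : Type*} [NormedAddCommGroup V] [NormedSpace ℝ V] [FiniteDimensional ℝ V]
variable {ι : Type*} [Finite ι]

/-- the polar, as a set of functionals -/
def Pol (x : ι → V) : Set (V →L[ℝ] ℝ) := {l | ∀ i, l (x i) ≤ 1}

theorem Pol_convex (x : ι → V) : Convex ℝ (Pol x) := by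
  intro l hl m hm a b ha hb hab i
  have h1 := mul_le_mul_of_nonneg_left (hl i) ha
  have h2 := mul_le_mul_of_nonneg_left (hm i) hb
  simp only [add_apply, smul_apply, smul_eq_mul]
  linarith

theorem Pol_closed (x : ι → V) : IsClosed (Pol x) := by
  have : Pol x = ⋂ i, {l : V →L[ℝ] ℝ | l (x i) ≤ 1} := by
    ext l; simp [Pol]
  rw [this]
  refine isClosed_iInter fun i => isClosed_le ?_ continuous_const
  exact (ContinuousLinearMap.apply ℝ ℝ (x i)).continuous

theorem le_hull (x : ι → V) (l : V →L[ℝ] ℝ) (hl : l ∈ Pol x) (y : V)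
    (hy : y ∈ convexHull ℝ (range x)) : l y ≤ 1 := by
  have hc : Convex ℝ {z : V | l z ≤ 1} := convex_halfSpace_le l.toLinearMap.isLinear 1
  have : convexHull ℝ (range x) ⊆ {z : V | l z ≤ 1} := by
    apply convexHull_min _ hc
    rintro _ ⟨i, rfl⟩
    exact hl i
  exact this hy

theorem Pol_bounded (x : ι → V) (h0 : (0 : V) ∈ interior (convexHull ℝ (range x))) :
    Bornology.IsBounded (Pol x) := by
  rw [mem_interior_iff_mem_nhds, Metric.mem_nhds_iff] at h0
  obtain ⟨r, hr, hb⟩ := h0
  rw [isBounded_iff_forall_norm_le]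
  refine ⟨2 / r, fun l hl => ?_⟩
  apply ContinuousLinearMap.opNorm_le_bound _ (by positivity)
  intro v
  rcases eq_or_ne v 0 with rfl | hv
  · simp
  have hvn : 0 < ‖v‖ := norm_pos_iff.2 hv
  have key : ∀ s : ℝ, |s| = 1 → s * l v ≤ 2 / r * ‖v‖ := by
    intro s hs
    have hmem : (s * (r / 2 / ‖v‖)) • v ∈ Metric.ball (0 : V) r := by
      rw [mem_ball_zero_iff, norm_smul, Real.norm_eq_abs, abs_mul, hs, one_mul,
        abs_of_pos (by positivity)]
      rw [div_mul_cancel₀ _ hvn.ne']
      linarith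
    have h1 := le_hull x l hl _ (hb hmem)
    rw [map_smul, smul_eq_mul] at h1
    have h2 : s * l v * (r / 2) ≤ ‖v‖ := by
      have := mul_le_mul_of_nonneg_right h1 hvn.le
      calc s * l v * (r / 2) = s * (r / 2 / ‖v‖) * l v * ‖v‖ := by field_simp
        _ ≤ 1 * ‖v‖ := this
        _ = ‖v‖ := one_mul _
    rw [div_mul_eq_mul_div, le_div_iff₀ hr]
    linarith
  rw [Real.norm_eq_abs, abs_le]
  constructor
  · have := key (-1) (by simp)
    linarith
  · have := key 1 (by simp)
    linarith

theorem Pol_compact (x : ι → V) (h0 : (0 : V) ∈ interior (convexHull ℝ (range x))) :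
    IsCompact (Pol x) :=
  Metric.isCompact_of_isClosed_isBounded (Pol_closed x) (Pol_bounded x h0)

/-- an extreme point of the polar is determined by its contact set -/
theorem extreme_determined (x : ι → V) (l m : V →L[ℝ] ℝ) (hl : l ∈ (Pol x).extremePoints ℝ)
    (hlm : ∀ i, l (x i) = 1 → m (x i) = 1) : l = m := by
  by_contra hne
  -- move l in the direction of g = m - l
  set g : V →L[ℝ] ℝ := m - l with hg
  have hg0 : g ≠ 0 := by
    rw [hg]; intro h; exact hne (sub_eq_zero.1 h).symm
  have hgi : ∀ i, l (x i) = 1 → g (x i) = 0 := by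
    intro i hi
    rw [hg, sub_apply, hlm i hi, hi, sub_self]
  have hev : ∀ᶠ t : ℝ in nhds 0, ∀ i, (l + t • g) (x i) ≤ 1 := by
    rw [Filter.eventually_all]
    intro i
    by_cases hi : l (x i) = 1
    · refine Filter.Eventually.of_forall fun t => ?_
      rw [add_apply, smul_apply, hgi i hi, smul_zero,
        add_zero, hi]
    · have hlt : l (x i) < 1 := lt_of_le_of_ne (hl.1 i) hi
      have hc : Continuous fun t : ℝ => (l + t • g) (x i) := by
        simp only [add_apply, smul_apply]
        fun_prop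
      have h0 : (l + (0 : ℝ) • g) (x i) < 1 := by simpa using hlt
      filter_upwards [hc.continuousAt.eventually_lt continuousAt_const h0] with t ht
      exact ht.le
  have hev2 : ∀ᶠ t : ℝ in nhds 0, ∀ i, (l + (-t) • g) (x i) ≤ 1 := by
    have : Filter.Tendsto (fun t : ℝ => -t) (nhds 0) (nhds 0) := by
      have := (continuous_neg (G := ℝ)).tendsto 0
      simpa using this
    exact this.eventually hev
  obtain ⟨e, he, hball⟩ := Metric.eventually_nhds_iff.1 (hev.and hev2)
  have hd := hball (show dist (e / 2) 0 < e by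
    rw [Real.dist_eq, sub_zero, abs_of_pos (by positivity)]; linarith)
  obtain ⟨h1, h2⟩ := hd
  have hmid : l ∈ openSegment ℝ (l + (e / 2) • g) (l + (-(e / 2)) • g) := by
    refine ⟨1 / 2, 1 / 2, by norm_num, by norm_num, by norm_num, ?_⟩
    module
  have := hl.2 h1 h2 hmid
  have h3 : (e / 2) • g = 0 := by
    have h4 : l + (e / 2) • g = l := this
    simpa using h4
  rcases smul_eq_zero.1 h3 with h | h
  · linarith
  · exact hg0 h

theorem extreme_finite (x : ι → V) : ((Pol x).extremePoints ℝ).Finite := by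
  have hinj : Set.InjOn (fun l : V →L[ℝ] ℝ => {i | l (x i) = 1}) ((Pol x).extremePoints ℝ) := by
    intro l hl m hm h
    apply extreme_determined x l m hl
    intro i hi
    have : i ∈ {i | l (x i) = 1} := hi
    simp only at h
    rw [h] at this
    exact this
  exact Set.Finite.of_finite_image (Set.toFinite _) hinj

/-- a polytope with the origin in its interior is cut out by finitely many functionals -/
theorem facets (x : ι → V) (h0 : (0 : V) ∈ interior (convexHull ℝ (range x))) :
    ∃ E : Set (V →L[ℝ] ℝ), E.Finite ∧ (∀ l ∈ E, ∀ i, l (x i) ≤ 1) ∧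
      ∀ y : V, (∀ l ∈ E, l y ≤ 1) → y ∈ convexHull ℝ (range x) := by
  refine ⟨(Pol x).extremePoints ℝ, extreme_finite x, fun l hl => hl.1, fun y hy => ?_⟩
  by_contra hny
  have hcl : IsClosed (convexHull ℝ (range x)) :=
    ((Set.finite_range x).isCompact_convexHull (𝕜 := ℝ)).isClosed
  obtain ⟨f, u, hf1, hf2⟩ := geometric_hahn_banach_closed_point
    (convex_convexHull ℝ (range x)) hcl hny
  have hu : 0 < u := by
    have := hf1 0 (interior_subset h0)
    simpa using this
  -- normalise
  set l0 : V →L[ℝ] ℝ := u⁻¹ • f with hl0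
  have hl0P : l0 ∈ Pol x := by
    intro i
    rw [hl0, smul_apply, smul_eq_mul]
    have := hf1 (x i) (subset_convexHull ℝ _ ⟨i, rfl⟩)
    rw [inv_mul_le_iff₀ hu, mul_one]
    exact this.le
  have hl0y : 1 < l0 y := by
    rw [hl0, smul_apply, smul_eq_mul, lt_inv_mul_iff₀ hu, mul_one]
    exact hf2
  -- the maximum of evaluation at y
  set ev : (V →L[ℝ] ℝ) →L[ℝ] ℝ := ContinuousLinearMap.apply ℝ ℝ y with hev
  have hcomp := Pol_compact x h0
  obtain ⟨m, hm, hmax⟩ := hcomp.exists_isMaxOn ⟨l0, hl0P⟩ ev.continuous.continuousOn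
  have hface : IsExposed ℝ (Pol x) {l ∈ Pol x | ∀ k ∈ Pol x, ev k ≤ ev l} := fun _ =>
    ⟨ev, rfl⟩
  have hne : ({l ∈ Pol x | ∀ k ∈ Pol x, ev k ≤ ev l}).Nonempty := ⟨m, hm, fun k hk => hmax hk⟩
  have hfc : IsCompact {l ∈ Pol x | ∀ k ∈ Pol x, ev k ≤ ev l} := hface.isCompact hcomp
  obtain ⟨e, he⟩ := hfc.extremePoints_nonempty hne
  have heP : e ∈ (Pol x).extremePoints ℝ :=
    hface.isExtreme.extremePoints_subset_extremePoints he
  have h1 := he.1.2 l0 hl0P
  have h2 := hy e heP
  have h3 : l0 y ≤ e y := h1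
  linarith

end Pool.Agent.Helper31.PN
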